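import Pool.Agent.W601.RP.Stm2

/-!
# The weights tend to zero
-/

set_option autoImplicit false
open scoped Classical
open Filter Topology

namespace Pool.Agent.W67.RP

open Pool.Agent.W601.RP

theorem fin_lists {α : Type} {S : Set α} (hS : S.Finite) (k : ℕ) :
    {l : List α | l.length ≤ k ∧ ∀ x ∈ l, x ∈ S}.Finite := by
  have := hS.to_subtype
  refine ((List.finite_length_le S k).image (List.map Subtype.val)).subset ?_
  rintro l ⟨hl, hx⟩
  refine ⟨l.pmap Subtype.mk hx, ?_, ?_⟩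
  · simpa using hl
  · simp [List.map_pmap]

theorem fin_letters (m : ℕ) : {a : Letter | GoodL a ∧ nL a ≤ m}.Finite := by
  set B : ℕ := (Finset.range m).sup M with hB
  have hP : {s : List ℕ | s.length ≤ m ∧ ∀ x ∈ s, x ∈ Set.Iio B}.Finite :=
    fin_lists (Set.finite_Iio B) m
  refine ((Set.finite_Iic m).prod (fin_lists hP m)).subset ?_
  rintro a ⟨ha, hm⟩
  obtain ⟨h1, h2, h3, h4, h5, h6, h7⟩ := ha
  refine Set.mem_prod.mpr ⟨Set.mem_Iic.mpr (h2.trans hm), h4.trans hm, fun s hs => ?_⟩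
  have hsl := h6 s hs
  refine ⟨hsl.le.trans hm, fun x hx => ?_⟩
  obtain ⟨i, hi, rfl⟩ := List.getElem_of_mem hx
  have hi' : i < nL a := hsl ▸ hi
  have h8 := h7 s hs i hi'
  rw [List.getD_eq_getElem _ _ hi] at h8
  refine Set.mem_Iio.mpr (lt_of_lt_of_le h8 ?_)
  exact Finset.le_sup (f := M) (Finset.mem_range.mpr (lt_of_lt_of_le hi' hm))

theorem lst_concat (l : List Letter) (b : Letter) : lst (l ++ [b]) = b := by
  simp [lst]

theorem nd_le {l : List Letter} (h : Nd l) : ∀ a ∈ l, nL a ≤ nL (lst l) := by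
  obtain ⟨h1, h2, h3⟩ := h
  rcases List.eq_nil_or_concat l with rfl | ⟨l', b, rfl⟩
  · exact absurd rfl h1
  · rw [List.concat_eq_append] at h3 ⊢
    rw [lst_concat]
    rw [List.pairwise_append] at h3
    intro a ha
    rw [List.mem_append, List.mem_singleton] at ha
    rcases ha with ha | rfl
    · exact (h3.2.2 a ha b (List.mem_singleton.mpr rfl)).1.le
    · exact le_rfl

theorem nd_length {l : List Letter} (h : Nd l) {m : ℕ} (hm : nL (lst l) ≤ m) :
    l.length ≤ m + 1 := by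
  have h1 : (l.map nL).Pairwise (· < ·) := by
    rw [List.pairwise_map]
    exact h.2.2.imp fun h => h.1
  have h2 : (l.map nL).Nodup := h1.imp fun h => h.ne
  have h3 : (l.map nL).toFinset ⊆ Finset.range (m + 1) := by
    intro x hx
    rw [List.mem_toFinset, List.mem_map] at hx
    obtain ⟨a, ha, rfl⟩ := hx
    have := nd_le h a ha
    rw [Finset.mem_range]
    omega
  have h4 := Finset.card_le_card h3
  rw [List.toFinset_card_of_nodup h2, List.length_map, Finset.card_range] at h4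
  exact h4

theorem fin_nodes (m : ℕ) : {l : List Letter | Nd l ∧ nL (lst l) ≤ m}.Finite := by
  refine (fin_lists (fin_letters m) (m + 1)).subset ?_
  rintro l ⟨hl, hm⟩
  exact ⟨nd_length hl hm, fun a ha => ⟨hl.2.1 a ha, (nd_le hl a ha).trans hm⟩⟩

theorem nu0 : S_NODE → S_NU0 := by
  intro hN
  obtain ⟨-, -, hN3, -⟩ := hN
  refine ⟨?_, ?_, ?_⟩
  · intro δ hδ
    have hlim : Tendsto (fun n : ℕ => (n : ℝ) ^ 1 * (1 / 2 : ℝ) ^ n) atTop (𝓝 0) :=
      tendsto_pow_const_mul_const_pow_of_abs_lt_one 1 (by rw [abs_of_pos] <;> norm_num)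
    obtain ⟨m, hm⟩ := eventually_atTop.mp (hlim.eventually (gt_mem_nhds hδ))
    refine ((fin_nodes m).image idx).subset ?_
    intro t ht
    have ht' : δ ≤ nu t := ht
    have hnode : IsNode t := by
      by_contra hn
      rw [nu, if_neg hn] at ht'
      linarith
    obtain ⟨h1, h2, h3, h4, h5, h6, h7, h8⟩ := hN3 t hnode
    refine ⟨nod t, ⟨h1, ?_⟩, h2⟩
    change nL (lt t) ≤ m
    by_contra hlt
    have h9 := hm (nL (lt t)) (by omega)
    rw [nu, if_pos hnode] at ht'
    have h10 : (((lt t).2.length : ℕ) : ℝ) * (1 / 2 : ℝ) ^ nL (lt t) ≤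
        ((nL (lt t) : ℕ) : ℝ) ^ 1 * (1 / 2 : ℝ) ^ nL (lt t) := by
      rw [pow_one]
      have h11 : (((lt t).2.length : ℕ) : ℝ) ≤ ((nL (lt t) : ℕ) : ℝ) := by exact_mod_cast h7
      exact mul_le_mul_of_nonneg_right h11 (by positivity)
    linarith
  · intro t
    unfold nu
    split_ifs with hnode
    · obtain ⟨h1, h2, h3, h4, h5, h6, h7, h8⟩ := hN3 t hnode
      have h9 : (lt t).2.length < 2 ^ nL (lt t) := lt_of_le_of_lt h7 Nat.lt_two_pow_self
      have h10 : (((lt t).2.length : ℕ) : ℝ) < (2 : ℝ) ^ nL (lt t) := by exact_mod_cast h9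
      rw [one_div, inv_pow, ← div_eq_mul_inv, div_lt_one (by positivity)]
      exact h10
    · exact zero_lt_one
  · intro t
    unfold nu
    split_ifs
    · positivity
    · exact le_rfl

end Pool.Agent.W67.RP
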